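import Pool.Agent.W2helper21.LP.Rigid

/-!
# The generator reaches the base conditions for local programs
-/

namespace Pool.Agent.W2helper21.LP

open Matrix Pool.Agent.W2helper94.PIT Pool.Agent.W2helper21.FRO

variable {F : Type*} [Field F] {m : Type} [Fintype m] [DecidableEq m]

/-- rank at least `ρ` somewhere -/
def GeV (M : ℕ → (ℕ → F) → Matrix m m F) (ρ i j : ℕ) : Prop :=
  ∃ x : ℕ → F, ρ ≤ (gp M x i j).rank

variable {M : ℕ → (ℕ → F) → Matrix m m F}

theorem GeV.mono {ρ i j i' j' : ℕ} (h : GeV M ρ i j) (h1 : i ≤ i') (h2 : i' ≤ j')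
    (h3 : j' ≤ j) : GeV M ρ i' j' := by
  obtain ⟨x, hx⟩ := h
  exact ⟨x, hx.trans ((rank_gp_mono_left _ h1 (h2.trans h3)).trans (rank_gp_mono_right _ h2 h3))⟩

/-- the base conditions at level `ρ` for the first `N` positions -/
def BaseV (M : ℕ → (ℕ → F) → Matrix m m F) (N : ℕ) (a : ℕ → F) (ρ : ℕ) : Prop :=
  ∀ i j, i < j → j ≤ N → (∀ p q, i < p → p < q → q < j → GeV M (ρ + 1) p q) → GeV M ρ i j →
    ρ ≤ (gp M a i j).rank

/-- under the base conditions all ranks are at least `ρ` at the base point -/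
theorem baseV_all {N ρ : ℕ} {a : ℕ → F} (hB : BaseV M N a ρ) :
    ∀ d p q, q - p ≤ d → p < q → q ≤ N → GeV M ρ p q → ρ ≤ (gp M a p q).rank := by
  intro d
  induction d with
  | zero => intro p q h1 h2; omega
  | succ d ih =>
    intro p q hd hpq hq hG
    by_cases hcase : ∀ p' q', p < p' → p' < q' → q' < q → GeV M (ρ + 1) p' q'
    · exact hB p q hpq hq hcase hG
    · push Not at hcase
      obtain ⟨p', q', h1, h2, h3, h4⟩ := hcase
      have hA : (gp M a p' q').rank ≤ ρ := by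
        by_contra hc
        exact h4 ⟨a, by omega⟩
      have e1 : ρ ≤ (gp M a p q').rank :=
        ih p q' (by omega) (by omega) (by omega) (hG.mono le_rfl (by omega) (by omega))
      have e2 : ρ ≤ (gp M a p' q).rank :=
        ih p' q (by omega) (by omega) hq (hG.mono (by omega) (by omega) le_rfl)
      rw [← gp_mul _ h2.le h3.le] at e2
      obtain ⟨C, hC⟩ := exists_recover hA e2
      rw [← gp_mul _ h1.le h2.le] at e1
      calc ρ ≤ (gp M a p p' * gp M a p' q').rank := e1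
        _ = (gp M a p q * C).rank := by
            rw [← gp_mul _ h1.le (h2.trans h3).le, ← gp_mul _ h2.le h3.le, Matrix.mul_assoc,
              hC]
        _ ≤ (gp M a p q).rank := Matrix.rank_mul_le_left _ _

theorem exists_muV (hM : ∀ l, MPF (M l)) (ρ i j : ℕ) :
    ∃ μ : (ℕ → F) → F, IsPF μ ∧ (∃ x, μ x ≠ 0) ∧
      (GeV M ρ i j → ∀ x, μ x ≠ 0 → ρ ≤ (gp M x i j).rank) ∧
      ((∃ (P : Matrix (Fin ρ) m F) (Q : Matrix m (Fin ρ) F),
        ∀ x, μ x = (P * gp M x i j * Q).det) ∨ ∀ x, μ x = 1) := by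
  by_cases h : GeV M ρ i j
  · obtain ⟨x, hx⟩ := h
    obtain ⟨P, Q, hPQ⟩ := exists_det_ne_zero hx
    refine ⟨fun x => (P * gp M x i j * Q).det, ?_, ⟨x, hPQ⟩, ?_, Or.inl ⟨P, Q, fun _ => rfl⟩⟩
    · apply MPF.det
      exact ((MPF.const P).mul (gp_MPF (g := fun x => x) hM
        (fun l => IsPF.coord _) _ _)).mul (MPF.const Q)
    · intro _ x hx
      exact le_rank_of_det_ne_zero hx
  · exact ⟨fun _ => 1, IsPF.const 1, ⟨fun _ => 0, one_ne_zero⟩, fun h' => absurd h' h,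
      Or.inr fun _ => rfl⟩

/-- few modifications for minors of a window -/
theorem rigid_det [CharZero F] {n k b : ℕ} (hM : ∀ l, MPF (M l)) {V : ℕ → Finset ℕ}
    (hdep : ∀ l, ∀ x x' : ℕ → F, (∀ u ∈ V l, x u = x' u) → M l x = M l x')
    (hV : ∀ q, ∀ u ∈ V q, u < n) (hb : ∀ q, (V q).card ≤ b) {N : ℕ}
    (hk : ∀ u, ((Finset.Ico 0 N).filter fun q => u ∈ V q).card ≤ k) {i j : ℕ} (hij : i ≤ j)
    (hj : j ≤ N) {a : ℕ → F}
    (hmax : ∀ p' q', i < p' → p' < q' → q' < j → ∀ x : ℕ → F,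
      (gp M x p' q').rank ≤ (gp M a p' q').rank) {ρ : ℕ}
    (P : Matrix (Fin ρ) m F) (Q : Matrix m (Fin ρ) F)
    (h : ∀ x, Md a (Rn (Fintype.card m) k b (ρ * ρ)) x → (P * gp M x i j * Q).det = 0)
    (x0 : ℕ → F) : (P * gp M x0 i j * Q).det = 0 := by
  classical
  let p : Fin ρ × Fin ρ → Win F m n k b := fun t =>
    { M := M
      poly := hM
      V := V
      dep := hdep
      i := i
      j := j
      hij := hij
      hV := hV
      hb := hb
      hk := fun u => (Finset.card_le_card (fun q hq => by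
        rw [Finset.mem_filter, Finset.mem_Ico] at hq ⊢
        exact ⟨⟨Nat.zero_le _, by omega⟩, hq.2⟩)).trans (hk u)
      y := P t.1
      v0 := fun c => Q c t.2 }
  have hw : ∀ x, wval p (Matrix.mvPolynomialX (Fin ρ) (Fin ρ) F).det x =
      (P * gp M x i j * Q).det := by
    intro x
    unfold wval
    rw [RingHom.map_det]
    congr 1
    ext a' b'
    rw [RingHom.mapMatrix_apply, Matrix.map_apply, Matrix.mvPolynomialX_apply,
      MvPolynomial.eval_X]
    show P a' ⬝ᵥ (gp M x i j *ᵥ fun c => Q c b') = _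
    rw [Matrix.mul_assoc, Matrix.mul_apply]
    rfl
  rw [← hw]
  refine rigid p (fun t => hmax) _ (fun x hx => ?_) x0
  rw [hw]
  apply h
  rw [Fintype.card_prod, Fintype.card_fin] at hx
  exact hx

/-- **The base conditions hold wherever a nonzero polynomial function of the seeds is nonzero.** -/
theorem base_gen [CharZero F] {n k b : ℕ} (hM : ∀ l, MPF (M l)) {V : ℕ → Finset ℕ}
    (hdep : ∀ l, ∀ x x' : ℕ → F, (∀ u ∈ V l, x u = x' u) → M l x = M l x')
    (hV : ∀ q, ∀ u ∈ V q, u < n) (hb : ∀ q, (V q).card ≤ b) {N : ℕ}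
    (hk : ∀ u, ((Finset.Ico 0 N).filter fun q => u ∈ V q).card ≤ k) {K : ℕ}
    (hK : ∀ ρ ≤ Fintype.card m, Rn (Fintype.card m) k b (ρ * ρ) ≤ K) :
    ∃ B : (ℕ ⊕ ℕ → F) → F, IsPF B ∧ (∃ s, B s ≠ 0) ∧
      ∀ s, B s ≠ 0 → ∀ i j, i < j → j ≤ N → ∀ x : ℕ → F,
        (gp M x i j).rank ≤ (gp M (G n id (Fintype.card m * K) s) i j).rank := by
  classical
  choose μ hμPF hμ0 hμr hμf using fun ρ i j => exists_muV hM ρ i j
  let good : ℕ × ℕ × ℕ → Prop := fun t => t.2.1 < t.2.2 ∧ t.2.2 ≤ N ∧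
    (∀ p q, t.2.1 < p → p < q → q < t.2.2 → GeV M (t.1 + 1) p q) ∧ GeV M t.1 t.2.1 t.2.2
  let I : ℕ → Finset (ℕ × ℕ × ℕ) := fun lo => ((Finset.range (Fintype.card m + 1)) ×ˢ
      (Finset.range (N + 1) ×ˢ Finset.range (N + 1))).filter (fun t => lo ≤ t.1 ∧ good t)
  have hI : ∀ lo (t : ℕ × ℕ × ℕ), lo ≤ t.1 → t.1 ≤ Fintype.card m → good t → t ∈ I lo := by
    intro lo t h1 h2 h3
    simp only [I, Finset.mem_filter, Finset.mem_product, Finset.mem_range]
    have := h3.1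
    have := h3.2.1
    exact ⟨⟨by omega, by omega, by omega⟩, h1, h3⟩
  have hI' : ∀ lo (t : ℕ × ℕ × ℕ), t ∈ I lo → lo ≤ t.1 ∧ t.1 ≤ Fintype.card m ∧ good t := by
    intro lo t ht
    simp only [I, Finset.mem_filter, Finset.mem_product, Finset.mem_range] at ht
    exact ⟨ht.2.1, by omega, ht.2.2⟩
  have toBase : ∀ (lo : ℕ) (q : ℕ) (s : ℕ ⊕ ℕ → F),
      (∀ t ∈ I lo, μ t.1 t.2.1 t.2.2 (G n id q s) ≠ 0) →
      ∀ ρ, lo ≤ ρ → ρ ≤ Fintype.card m → BaseV M N (G n id q s) ρ := by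
    intro lo q s hall ρ h1 h2 i j hij hj hint hG
    exact hμr ρ i j hG _ (hall (ρ, i, j) (hI lo _ h1 h2 ⟨hij, hj, hint, hG⟩))
  have common : ∀ (lo q : ℕ), (∀ t ∈ I lo, ∃ s : ℕ ⊕ ℕ → F,
      μ t.1 t.2.1 t.2.2 (G n id q s) ≠ 0) →
      ∃ s : ℕ ⊕ ℕ → F, ∀ t ∈ I lo, μ t.1 t.2.1 t.2.2 (G n id q s) ≠ 0 := by
    intro lo q h
    exact IsPF.exists_common (I lo)
      (f := fun t (s : ℕ ⊕ ℕ → F) => μ t.1 t.2.1 t.2.2 (G n id q s))
      (fun t _ => (hμPF _ _ _).comp (fun l => G_PF n id q l)) h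
  have main : ∀ t ≤ Fintype.card m, ∀ u ∈ I (Fintype.card m + 1 - t),
      ∃ s : ℕ ⊕ ℕ → F, μ u.1 u.2.1 u.2.2 (G n id (t * K) s) ≠ 0 := by
    intro t
    induction t with
    | zero =>
      intro _ u hu
      have := hI' _ u hu
      omega
    | succ t ih =>
      intro ht u hu'
      obtain ⟨h1, h2, hu⟩ := hI' _ u hu'
      obtain ⟨s, hsall⟩ := common _ (t * K) (ih (by omega))
      have hsB := toBase _ _ s hsall
      by_cases hnew : Fintype.card m + 1 - t ≤ u.1
      · obtain ⟨s', hs'⟩ := G_mono n id (q := t * K) (q' := (t + 1) * K)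
          (Nat.mul_le_mul_right K (Nat.le_succ t)) s
        exact ⟨s', by rw [hs']; exact hsall u (hI _ u hnew h2 hu)⟩
      · have hu1 : u.1 + 1 = Fintype.card m + 1 - t := by omega
        rcases hμf u.1 u.2.1 u.2.2 with ⟨P, Q, hPQ⟩ | h1'
        · have hmax : ∀ p' q', u.2.1 < p' → p' < q' → q' < u.2.2 → ∀ x : ℕ → F,
              (gp M x p' q').rank ≤ (gp M (G n id (t * K) s) p' q').rank := by
            intro p' q' h3 h4 h5 x
            have h6 := hu.2.1
            have hlow : u.1 + 1 ≤ (gp M (G n id (t * K) s) p' q').rank :=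
              baseV_all (hsB (u.1 + 1) (by omega) (by
                obtain ⟨x', hx'⟩ := hu.2.2.1 p' q' h3 h4 h5
                exact hx'.trans (Matrix.rank_le_card_width _)))
                (q' - p') p' q' le_rfl h4 (by omega) (hu.2.2.1 p' q' h3 h4 h5)
            by_cases h7 : u.1 + 1 ≤ (gp M x p' q').rank
            · exact baseV_all (hsB _ (by omega) (Matrix.rank_le_card_width _))
                (q' - p') p' q' le_rfl h4 (by omega) ⟨x, le_rfl⟩
            · omega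
          have hex : ∃ x, Md (G n id (t * K) s) K x ∧ μ u.1 u.2.1 u.2.2 x ≠ 0 := by
            by_contra hcon
            push Not at hcon
            obtain ⟨x0, hx0⟩ := hμ0 u.1 u.2.1 u.2.2
            apply hx0
            rw [hPQ]
            refine rigid_det hM hdep hV hb hk hu.1.le hu.2.1 hmax P Q (fun x hx => ?_) x0
            rw [← hPQ]
            exact hcon x (hx.mono (hK u.1 h2))
          obtain ⟨x, hx, hμx⟩ := hex
          obtain ⟨s', hs'⟩ := G_add (n := n) (σ := id) (fun l hl => hl)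
            (fun l _ l' _ h => h) _ s K x hx
          refine ⟨s', ?_⟩
          have e : (t + 1) * K = t * K + K := by ring
          rw [e]
          have : μ u.1 u.2.1 u.2.2 (G n id (t * K + K) s') = μ u.1 u.2.1 u.2.2 x := by
            rw [hPQ, hPQ, gp_congr (x := G n id (t * K + K) s') (x' := x)]
            intro l _ _
            exact hdep l _ _ fun u' hu' => hs' u' (hV l u' hu')
          rw [this]
          exact hμx
        · exact ⟨fun _ => 0, by rw [h1']; exact one_ne_zero⟩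
  have main' := main (Fintype.card m) le_rfl
  have e1 : Fintype.card m + 1 - Fintype.card m = 1 := by omega
  rw [e1] at main'
  refine ⟨fun s => ∏ t ∈ I 1, μ t.1 t.2.1 t.2.2 (G n id (Fintype.card m * K) s), ?_, ?_, ?_⟩
  · exact IsPF.prod _ fun t _ => (hμPF _ _ _).comp (fun l => G_PF n id _ l)
  · obtain ⟨s, hs⟩ := common 1 _ main'
    exact ⟨s, Finset.prod_ne_zero_iff.mpr hs⟩
  · intro s hs i j hij hj x
    have hB := toBase 1 _ s (Finset.prod_ne_zero_iff.mp hs)
    rcases Nat.eq_zero_or_pos (gp M x i j).rank with h0 | h0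
    · rw [h0]
      exact Nat.zero_le _
    · exact baseV_all (hB _ h0 (Matrix.rank_le_card_width _)) (j - i) i j le_rfl hij hj
        ⟨x, le_rfl⟩

/-- the number of modifications for the base conditions -/
def Kb (w k b : ℕ) : ℕ := ∑ ρ ∈ Finset.range (w + 1), Rn w k b (ρ * ρ)

theorem le_Kb {w k b ρ : ℕ} (h : ρ ≤ w) : Rn w k b (ρ * ρ) ≤ Kb w k b :=
  Finset.single_le_sum (f := fun ρ => Rn w k b (ρ * ρ)) (fun _ _ => Nat.zero_le _)
    (Finset.mem_range.mpr (Nat.lt_succ_of_le h))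

/-- **The generator hits functions of local programs.** -/
theorem gen_hits_lp [CharZero F] {n k b : ℕ} {τ : Type} [Fintype τ] [DecidableEq τ]
    (p : τ → Win F m n k b) (hp : ∀ t, (p t).i = 0) (Ψ : MvPolynomial τ F) {x0 : ℕ → F}
    (hx0 : wval p Ψ x0 ≠ 0) :
    ∃ s : ℕ ⊕ ℕ → F, wval p Ψ (G n id (Fintype.card m * Kb (Fintype.card m) k b +
      Rn (Fintype.card m) k b (Fintype.card τ)) s) ≠ 0 := by
  have hbase : ∀ t, ∃ B : (ℕ ⊕ ℕ → F) → F, IsPF B ∧ (∃ s, B s ≠ 0) ∧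
      ∀ s, B s ≠ 0 → ∀ i j, i < j → j ≤ (p t).j → ∀ x : ℕ → F,
        (gp (p t).M x i j).rank ≤
          (gp (p t).M (G n id (Fintype.card m * Kb (Fintype.card m) k b) s) i j).rank := fun t =>
    base_gen (p t).poly (p t).dep (p t).hV (p t).hb
      (by have := (p t).hk; rwa [hp t] at this) (fun ρ hρ => le_Kb hρ)
  choose B hB hB0 hBF using hbase
  obtain ⟨s, hs⟩ := IsPF.exists_common Finset.univ (fun i _ => hB i) (fun i _ => hB0 i)
  let a : ℕ → F := G n id (Fintype.card m * Kb (Fintype.card m) k b) s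
  have hex : ∃ x, Md a (Rn (Fintype.card m) k b (Fintype.card τ)) x ∧ wval p Ψ x ≠ 0 := by
    by_contra hcon
    push Not at hcon
    exact hx0 (rigid p (fun t p' q' _ h2 h3 x =>
      hBF t s (hs t (Finset.mem_univ t)) p' q' h2 h3.le x) Ψ hcon x0)
  obtain ⟨x, hx, hne⟩ := hex
  obtain ⟨s', hs'⟩ := G_add (n := n) (σ := id) (fun l hl => hl) (fun l _ l' _ h => h) _ s _ x hx
  refine ⟨s', ?_⟩
  rw [wval_congr p Ψ hs']
  exact hne

end Pool.Agent.W2helper21.LP
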