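import Pool.Agent.W2helper21.LP.Base
import Pool.Agent.W2helper21.FRO.Poly

/-!
# Polynomials computed by local programs
-/

namespace Pool.Agent.W2helper21.LP

open MvPolynomial Pool.Agent.W2helper94.PIT
open Pool.Agent.W2helper21.ROT (trdeg_reduce')
open Pool.Agent.W2helper21.FRO (TrdegLE genPoly eval_genPoly prod_erase_eq)

/-- `p` is computed by a program of width `w`, locality `b` and read number `k`: a product
`u · M_1 ⋯ M_N · z` of `w × w` matrices of polynomials, where `M_q` involves only variables of a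
set `V_q` with at most `b` elements, and every variable is in at most `k` of the sets `V_q`. -/
def ComputedByProgram {K : Type*} [Field K] {n : ℕ} (w k b : ℕ) (p : MvPolynomial (Fin n) K) :
    Prop :=
  ∃ (N : ℕ) (M : Fin N → Matrix (Fin w) (Fin w) (MvPolynomial (Fin n) K))
    (V : Fin N → Finset (Fin n)) (u z : Fin w → K),
    (∀ q a c, (M q a c).vars ⊆ V q) ∧ (∀ q, (V q).card ≤ b) ∧
    (∀ i, (Finset.univ.filter fun q => i ∈ V q).card ≤ k) ∧
    p = ∑ a, ∑ c, C (u a) * (List.ofFn M).prod a c * C (z c)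

section Proof

variable {K : Type*} [Field K]

/-- extending a sequence of matrices -/
noncomputable def extM {n N w : ℕ} (M : Fin N → Matrix (Fin w) (Fin w) (MvPolynomial (Fin n) K))
    (l : ℕ) (x : ℕ → K) : Matrix (Fin w) (Fin w) K :=
  if h : l < N then (M ⟨l, h⟩).map (eval fun i : Fin n => x i) else 1

/-- extending a sequence of sets of variables -/
def extV {n N : ℕ} (V : Fin N → Finset (Fin n)) (l : ℕ) : Finset ℕ :=
  if h : l < N then (V ⟨l, h⟩).map Fin.valEmbedding else ∅

theorem extM_MPF {n N w : ℕ} (M : Fin N → Matrix (Fin w) (Fin w) (MvPolynomial (Fin n) K)) :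
    ∀ l, MPF (extM M l) := by
  intro l a b
  unfold extM
  by_cases h : l < N
  · simp only [dif_pos h, Matrix.map_apply]
    refine ⟨rename Fin.val (M ⟨l, h⟩ a b), fun x => ?_⟩
    rw [eval_rename]
    rfl
  · simp only [dif_neg h]
    exact IsPF.const _

theorem extM_dep {n N w : ℕ} {M : Fin N → Matrix (Fin w) (Fin w) (MvPolynomial (Fin n) K)}
    {V : Fin N → Finset (Fin n)} (hV : ∀ q a c, (M q a c).vars ⊆ V q) :
    ∀ l, ∀ x x' : ℕ → K, (∀ u ∈ extV V l, x u = x' u) → extM M l x = extM M l x' := by
  intro l x x' h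
  unfold extM
  by_cases hl : l < N
  · simp only [dif_pos hl]
    ext a b
    rw [Matrix.map_apply, Matrix.map_apply]
    apply eval₂Hom_congr' rfl _ rfl
    intro i hi _
    apply h
    unfold extV
    rw [dif_pos hl, Finset.mem_map]
    exact ⟨i, hV _ _ _ hi, rfl⟩
  · simp only [dif_neg hl]

theorem eval_prog {n N w : ℕ} (M : Fin N → Matrix (Fin w) (Fin w) (MvPolynomial (Fin n) K))
    (u z : Fin w → K) (x : ℕ → K) :
    eval (fun i : Fin n => x i) (∑ a, ∑ c, C (u a) * (List.ofFn M).prod a c * C (z c)) =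
      dotProduct u (Matrix.mulVec (gp (extM M) x 0 N) z) := by
  have h0 : ((List.ofFn M).prod).map (eval fun i : Fin n => x i) = gp (extM M) x 0 N := by
    have h2 := map_list_prod (RingHom.mapMatrix (m := Fin w) (eval fun i : Fin n => x i))
      (List.ofFn M)
    rw [RingHom.mapMatrix_apply] at h2
    rw [h2, List.map_ofFn]
    unfold gp
    congr 1
    rw [List.Ico.zero_bot]
    apply List.ext_getElem
    · simp
    · intro l h3 h4
      have hl : l < N := by simpa using h3
      simp [extM, hl]
  rw [← h0]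
  simp only [map_sum, map_mul, eval_C, dotProduct, Matrix.mulVec, Matrix.map_apply,
    Finset.mul_sum, mul_assoc]

theorem exists_win {n w k b : ℕ} {p : MvPolynomial (Fin n) K} (hp : ComputedByProgram w k b p) :
    ∃ q : Win K (Fin w) n k b, q.i = 0 ∧ ∀ x : ℕ → K, q.val x = eval (fun l : Fin n => x l) p := by
  classical
  obtain ⟨N, M, V, u, z, h1, h2, h3, hpe⟩ := hp
  refine ⟨⟨extM M, extM_MPF M, extV V, extM_dep h1, 0, N, Nat.zero_le N, ?_, ?_, ?_, u, z⟩, rfl,
    fun x => ?_⟩
  · intro q v hv
    unfold extV at hv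
    by_cases hq : q < N
    · rw [dif_pos hq, Finset.mem_map] at hv
      obtain ⟨i, _, rfl⟩ := hv
      exact i.2
    · rw [dif_neg hq] at hv
      exact absurd hv (Finset.notMem_empty v)
  · intro q
    unfold extV
    by_cases hq : q < N
    · rw [dif_pos hq, Finset.card_map]
      exact h2 _
    · rw [dif_neg hq]
      exact Nat.zero_le _
  · intro v
    by_cases hv : v < n
    · refine le_trans ?_ (h3 ⟨v, hv⟩)
      rw [← Finset.card_map Fin.valEmbedding]
      apply Finset.card_le_card
      intro q hq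
      rw [Finset.mem_filter, Finset.mem_Ico] at hq
      obtain ⟨⟨_, hqN⟩, hqv⟩ := hq
      rw [Finset.mem_map]
      refine ⟨⟨q, hqN⟩, ?_, rfl⟩
      rw [Finset.mem_filter]
      refine ⟨Finset.mem_univ _, ?_⟩
      unfold extV at hqv
      rw [dif_pos hqN, Finset.mem_map] at hqv
      obtain ⟨i, hi, hiv⟩ := hqv
      have : i = ⟨v, hv⟩ := Fin.ext hiv
      rwa [← this]
    · have : (Finset.Ico 0 N).filter (fun q => v ∈ extV V q) = ∅ := by
        apply Finset.filter_eq_empty_iff.mpr
        intro q hq hqv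
        rw [Finset.mem_Ico] at hq
        unfold extV at hqv
        rw [dif_pos hq.2, Finset.mem_map] at hqv
        obtain ⟨i, _, rfl⟩ := hqv
        exact hv i.2
      rw [this, Finset.card_empty]
      exact Nat.zero_le _
  · rw [hpe, eval_prog]
    rfl

/-- the number of copies of the basic generator -/
def lSeeds (w k b T : ℕ) : ℕ := w * Kb w k b + Rn w k b T

/-- the generator does not kill a nonzero function of polynomials computed by programs -/
theorem bind_ne_zero_fun [CharZero K] {n w k b T : ℕ} {p : Fin T → MvPolynomial (Fin n) K}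
    (hp : ∀ i, ComputedByProgram w k b (p i)) (Ψ : MvPolynomial (Fin T) K)
    (h0 : bind₁ p Ψ ≠ 0) : bind₁ (genPoly K n (lSeeds w k b T)) (bind₁ p Ψ) ≠ 0 := by
  have : Infinite K := inferInstance
  choose q hqi hq using fun i => exists_win (hp i)
  have heval : ∀ x' : ℕ → K, wval q Ψ x' = eval (fun l : Fin n => x' l) (bind₁ p Ψ) := by
    intro x'
    rw [Pool.Agent.W2helper21.ROT.eval_bind]
    unfold wval
    congr 2
    funext i
    exact hq i x'
  have hex : ∃ x : Fin n → K, eval x (bind₁ p Ψ) ≠ 0 := by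
    by_contra hcon
    push Not at hcon
    exact h0 (MvPolynomial.funext fun x => by rw [hcon x, map_zero])
  obtain ⟨x, hx⟩ := hex
  let x0 : ℕ → K := fun l => if h : l < n then x ⟨l, h⟩ else 0
  have hx0 : (fun l : Fin n => x0 l) = x := by
    funext l
    simp [x0]
  rw [← hx0, ← heval] at hx
  obtain ⟨s, hs⟩ := gen_hits_lp q hqi Ψ hx
  rw [Fintype.card_fin, Fintype.card_fin, heval] at hs
  intro hcon
  let s' : Fin (lSeeds w k b T) ⊕ Fin (lSeeds w k b T) → K :=
    Sum.elim (fun t => s (Sum.inl t)) (fun t => s (Sum.inr t))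
  have h1 := eval_genPoly (q := lSeeds w k b T) (bind₁ p Ψ) s'
  rw [hcon, map_zero] at h1
  apply hs
  rw [h1]
  congr 2
  funext l
  show G n id (lSeeds w k b T) s (l : ℕ) = _
  unfold G
  rw [Finset.sum_range]
  refine Finset.sum_congr rfl fun t _ => ?_
  rw [id, ← prod_erase_eq]
  rfl

/-- the same for many polynomials of bounded transcendence degree -/
theorem bind_ne_zero_trdeg [CharZero K] {n w k b s T : ℕ} {p : Fin s → MvPolynomial (Fin n) K}
    (hp : ∀ i, ComputedByProgram w k b (p i)) (hT : TrdegLE T p) (Ψ : MvPolynomial (Fin s) K)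
    (h0 : bind₁ p Ψ ≠ 0) : bind₁ (genPoly K n (lSeeds w k b T)) (bind₁ p Ψ) ≠ 0 := by
  rcases Nat.eq_zero_or_pos s with rfl | hs
  · obtain ⟨c, rfl⟩ := C_surjective (Fin 0) Ψ
    rw [bind₁_C_right] at h0 ⊢
    rw [bind₁_C_right]
    intro h1
    apply h0
    have := C_injective _ _ (h1.trans (map_zero C).symm)
    rw [this, map_zero]
  · obtain ⟨e, Q, hQ, hdvd⟩ := trdeg_reduce' hs p hT Ψ h0
    have h1 := bind_ne_zero_fun (fun t => hp (e t)) Q hQ
    obtain ⟨R, hR⟩ := hdvd
    intro hcon
    apply h1
    rw [hR, map_mul, hcon, zero_mul]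

/-- A ROABP of width `w` in an arbitrary variable order is a program of locality one in which
every variable is read once. -/
theorem of_roabp {n w : ℕ} {p : MvPolynomial (Fin n) K}
    (hp : Pool.Agent.W2helper21.FRO.ComputedByROABP w p) : ComputedByProgram w 1 1 p := by
  classical
  obtain ⟨σ, M, u, z, h⟩ := hp
  refine ⟨n, fun l => (M l).map (Polynomial.aeval (X (σ l) : MvPolynomial (Fin n) K)),
    fun l => {σ l}, u, z, ?_, ?_, ?_, h⟩
  · intro l a c i hi
    replace hi : i ∈ (Polynomial.aeval (X (σ l) : MvPolynomial (Fin n) K) (M l a c)).vars := hi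
    show i ∈ ({σ l} : Finset (Fin n))
    rw [Finset.mem_singleton]
    by_contra hne
    have h1 : (Polynomial.aeval (X (σ l) : MvPolynomial (Fin n) K) (M l a c)) =
        rename (fun _ : Unit => σ l) (Polynomial.aeval (X () : MvPolynomial Unit K) (M l a c)) := by
      rw [← Polynomial.aeval_algHom_apply, rename_X]
    rw [h1] at hi
    have h2 := (vars_rename (fun _ : Unit => σ l) _) hi
    rw [Finset.mem_image] at h2
    obtain ⟨_, _, h3⟩ := h2
    exact hne h3.symm
  · intro l
    rw [Finset.card_singleton]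
  · intro i
    have : (Finset.univ.filter fun q : Fin n => i ∈ ({σ q} : Finset (Fin n))) = {σ.symm i} := by
      ext q
      simp only [Finset.mem_filter, Finset.mem_univ, true_and, Finset.mem_singleton]
      rw [Equiv.eq_symm_apply]
      exact eq_comm
    rw [this, Finset.card_singleton]

end Proof

end Pool.Agent.W2helper21.LP
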