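import Pool.Agent.W2helper21.RK.Rep

/-!
# Few modifications suffice for functions of windows of local programs

A local program is a product of matrices of bounded size whose entries are polynomials; every
matrix depends on at most `b` variables and every variable occurs in at most `k` matrices.
-/

namespace Pool.Agent.W2helper21.LP

open Matrix Pool.Agent.W2helper94.PIT Pool.Agent.W2helper21.FRO
open Pool.Agent.W2helper21.RK (Bk Cd Reg rd mem_rd struct_many rep)

variable {F : Type*} [Field F]

section Products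

variable {m : Type} [Fintype m] [DecidableEq m]

/-- the product of the matrices `M l x` for `i ≤ l < j` -/
def gp (M : ℕ → (ℕ → F) → Matrix m m F) (x : ℕ → F) (i j : ℕ) : Matrix m m F :=
  ((List.Ico i j).map fun l => M l x).prod

variable {M : ℕ → (ℕ → F) → Matrix m m F}

theorem gp_mul (x : ℕ → F) {i k j : ℕ} (h1 : i ≤ k) (h2 : k ≤ j) :
    gp M x i k * gp M x k j = gp M x i j := by
  unfold gp
  rw [← List.prod_append, ← List.map_append, List.Ico.append_consecutive h1 h2]

theorem gp_congr {x x' : ℕ → F} {i j : ℕ} (h : ∀ l, i ≤ l → l < j → M l x = M l x') :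
    gp M x i j = gp M x' i j := by
  unfold gp
  congr 1
  apply List.map_congr_left
  intro l hl
  rw [List.Ico.mem] at hl
  exact h l hl.1 hl.2

theorem gp_eq_cp {M' : ℕ → F → Matrix m m F} {x y : ℕ → F} {i j : ℕ}
    (h : ∀ l, i ≤ l → l < j → M l x = M' l (y l)) : gp M x i j = cp M' y i j := by
  unfold gp cp
  congr 1
  apply List.map_congr_left
  intro l hl
  rw [List.Ico.mem] at hl
  exact h l hl.1 hl.2

theorem gp_MPF {ι : Type*} (hM : ∀ l, MPF (M l)) {g : (ι → F) → (ℕ → F)}
    (hg : ∀ l, IsPF (fun x => g x l)) (i j : ℕ) : MPF (fun x => gp M (g x) i j) := by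
  unfold gp
  apply MPF.list_prod
  intro l _
  exact (hM l).comp hg

theorem rank_gp_mono_left (x : ℕ → F) {i k j : ℕ} (h1 : i ≤ k) (h2 : k ≤ j) :
    (gp M x i j).rank ≤ (gp M x k j).rank := by
  rw [← gp_mul x h1 h2]
  exact Matrix.rank_mul_le_right _ _

theorem rank_gp_mono_right (x : ℕ → F) {i k j : ℕ} (h1 : i ≤ k) (h2 : k ≤ j) :
    (gp M x i j).rank ≤ (gp M x i k).rank := by
  rw [← gp_mul x h1 h2]
  exact Matrix.rank_mul_le_left _ _

end Products

/-- independent sets in a graph of bounded degree -/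
theorem indep (Nb : ℕ → Finset ℕ) (D : ℕ) (hNb : ∀ u, (Nb u).card ≤ D)
    (hsym : ∀ u u', u' ∈ Nb u → u ∈ Nb u') : ∀ (s : ℕ) (S : Finset ℕ), s * (D + 1) ≤ S.card →
    ∃ S' ⊆ S, S'.card = s ∧ ∀ u ∈ S', ∀ u' ∈ S', u ≠ u' → u' ∉ Nb u := by
  classical
  intro s
  induction s with
  | zero =>
    intro S _
    exact ⟨∅, Finset.empty_subset _, rfl, by simp⟩
  | succ s ih =>
    intro S hS
    have h0 : (s + 1) * (D + 1) = s * (D + 1) + D + 1 := by ring
    have hne : S.Nonempty := Finset.card_pos.mp (by omega)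
    obtain ⟨u, hu⟩ := hne
    have h1 : s * (D + 1) ≤ ((S \ Nb u).erase u).card := by
      have h2 := Finset.le_card_sdiff (Nb u) S
      have h3 := hNb u
      have h4 := Finset.pred_card_le_card_erase (s := S \ Nb u) (a := u)
      omega
    obtain ⟨S', hS', hc, hi⟩ := ih _ h1
    have hmem : ∀ u' ∈ S', u' ≠ u ∧ u' ∈ S ∧ u' ∉ Nb u := by
      intro u' hu'
      have h5 := hS' hu'
      rw [Finset.mem_erase, Finset.mem_sdiff] at h5
      exact ⟨h5.1, h5.2.1, h5.2.2⟩
    refine ⟨insert u S', ?_, ?_, ?_⟩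
    · intro u' hu'
      rw [Finset.mem_insert] at hu'
      rcases hu' with rfl | hu'
      · exact hu
      · exact (hmem u' hu').2.1
    · rw [Finset.card_insert_of_notMem (fun h => (hmem u h).1 rfl), hc]
    · intro u1 hu1 u2 hu2 hne
      rw [Finset.mem_insert] at hu1 hu2
      rcases hu1 with rfl | hu1
      · rcases hu2 with rfl | hu2
        · exact absurd rfl hne
        · exact (hmem u2 hu2).2.2
      · rcases hu2 with rfl | hu2
        · exact fun h => (hmem u1 hu1).2.2 (hsym _ _ h)
        · exact hi u1 hu1 u2 hu2 hne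

/-- a window of a local program -/
structure Win (F : Type*) [Field F] (m : Type) [Fintype m] [DecidableEq m] (n k b : ℕ) where
  /-- the matrices -/
  M : ℕ → (ℕ → F) → Matrix m m F
  poly : ∀ l, MPF (M l)
  /-- the variables of a matrix -/
  V : ℕ → Finset ℕ
  dep : ∀ l, ∀ x x' : ℕ → F, (∀ u ∈ V l, x u = x' u) → M l x = M l x'
  /-- the beginning of the window -/
  i : ℕ
  /-- the end of the window -/
  j : ℕ
  hij : i ≤ j
  hV : ∀ q, ∀ u ∈ V q, u < n
  hb : ∀ q, (V q).card ≤ b
  hk : ∀ u, ((Finset.Ico i j).filter fun q => u ∈ V q).card ≤ k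
  /-- the initial vector -/
  y : m → F
  /-- the final vector -/
  v0 : m → F

variable {m : Type} [Fintype m] [DecidableEq m]

namespace Win

variable {n k b : ℕ}

/-- the value -/
def val (p : Win F m n k b) (x : ℕ → F) : F := p.y ⬝ᵥ (gp p.M x p.i p.j *ᵥ p.v0)

theorem val_congr (p : Win F m n k b) {x x' : ℕ → F} (h : ∀ l < n, x l = x' l) :
    p.val x = p.val x' := by
  unfold val
  rw [gp_congr]
  intro l _ _
  exact p.dep l x x' fun u hu => h u (p.hV l u hu)

theorem val_PF (p : Win F m n k b) : IsPF p.val := by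
  unfold val
  exact MPF.dot (gp_MPF (g := fun x => x) p.poly (fun l => IsPF.coord _) _ _) p.y p.v0

end Win

variable {τ : Type} [Fintype τ] [DecidableEq τ] {n k b : ℕ}

/-- the value of the function -/
noncomputable def wval (p : τ → Win F m n k b) (Ψ : MvPolynomial τ F) (x : ℕ → F) : F :=
  MvPolynomial.eval (fun t => (p t).val x) Ψ

omit [Fintype τ] [DecidableEq τ] in
theorem wval_PF (p : τ → Win F m n k b) (Ψ : MvPolynomial τ F) : IsPF (wval p Ψ) := by
  choose q hq using fun t => (p t).val_PF
  refine ⟨MvPolynomial.bind₁ q Ψ, fun x => ?_⟩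
  rw [Pool.Agent.W2helper21.ROT.eval_bind]
  unfold wval
  congr 2
  funext t
  rw [hq]

omit [Fintype τ] [DecidableEq τ] in
theorem wval_congr (p : τ → Win F m n k b) (Ψ : MvPolynomial τ F)
    {x x' : ℕ → F} (h : ∀ l < n, x l = x' l) : wval p Ψ x = wval p Ψ x' := by
  unfold wval
  congr 2
  funext t
  exact (p t).val_congr h

/-- number of modifications -/
def Rn (w k b T : ℕ) : ℕ :=
  (Bk k)^[T] (Lb (Cd w k * (w * w)) T) * (T * (k * b) + 1) + T * (2 * b)

/-- **Few modifications suffice for functions of windows of local programs.** -/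
theorem rigid [CharZero F] (p : τ → Win F m n k b) {a : ℕ → F}
    (hmax : ∀ t, ∀ p' q', (p t).i < p' → p' < q' → q' < (p t).j → ∀ x : ℕ → F,
      (gp (p t).M x p' q').rank ≤ (gp (p t).M a p' q').rank) (Ψ : MvPolynomial τ F)
    (h : ∀ x, Md a (Rn (Fintype.card m) k b (Fintype.card τ)) x → wval p Ψ x = 0) (x0 : ℕ → F) :
    wval p Ψ x0 = 0 := by
  classical
  by_contra hx0
  set L := Lb (Cd (Fintype.card m) k * (Fintype.card m * Fintype.card m)) (Fintype.card τ)
    with hLdef
  have hL0 : 0 < L := by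
    rw [hLdef]
    unfold Lb
    omega
  let 𝒮 : Finset (Finset ℕ) := (Finset.range n).powerset.filter fun S =>
    ∃ x : ℕ → F, (∀ l, l ∉ S → x l = a l) ∧ wval p Ψ x ≠ 0
  have h𝒮 : 𝒮.Nonempty := by
    refine ⟨Finset.range n, ?_⟩
    rw [Finset.mem_filter, Finset.mem_powerset]
    refine ⟨Finset.Subset.refl _, fun l => if l < n then x0 l else a l, fun l hl => ?_, ?_⟩
    · rw [Finset.mem_range] at hl
      simp only [if_neg hl]
    · rw [wval_congr p Ψ (x' := x0) (fun l hl => by simp only [if_pos hl])]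
      exact hx0
  obtain ⟨S, hS, hmin⟩ := Finset.exists_min_image 𝒮 Finset.card h𝒮
  rw [Finset.mem_filter, Finset.mem_powerset] at hS
  obtain ⟨hSn, xS, hxS, hxSne⟩ := hS
  have hcard : Rn (Fintype.card m) k b (Fintype.card τ) < S.card := by
    by_contra hlt
    push Not at hlt
    exact hxSne (h xS ⟨S, hlt, hxS⟩)
  -- variables of the matrices at the ends of the windows
  let E : Finset ℕ := Finset.univ.biUnion fun t => (p t).V (p t).i ∪ (p t).V ((p t).j - 1)
  have hE : E.card ≤ Fintype.card τ * (2 * b) := by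
    refine Finset.card_biUnion_le.trans ?_
    refine (Finset.sum_le_card_nsmul _ _ (2 * b) (fun t _ => ?_)).trans ?_
    · refine (Finset.card_union_le _ _).trans ?_
      have h1 := (p t).hb (p t).i
      have h2 := (p t).hb ((p t).j - 1)
      omega
    · rw [Finset.card_univ, smul_eq_mul]
  have hE1 : ∀ t, ∀ u ∈ (p t).V (p t).i, u ∈ E := fun t u hu =>
    Finset.mem_biUnion.mpr ⟨t, Finset.mem_univ t, Finset.mem_union_left _ hu⟩
  have hE2 : ∀ t, ∀ u ∈ (p t).V ((p t).j - 1), u ∈ E := fun t u hu =>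
    Finset.mem_biUnion.mpr ⟨t, Finset.mem_univ t, Finset.mem_union_right _ hu⟩
  -- neighbours
  let rdV : τ → ℕ → Finset ℕ := fun t u =>
    (Finset.Ico (p t).i (p t).j).filter fun q => u ∈ (p t).V q
  have hrdV : ∀ t u q, q ∈ rdV t u ↔ ((p t).i ≤ q ∧ q < (p t).j) ∧ u ∈ (p t).V q := by
    intro t u q
    simp only [rdV, Finset.mem_filter, Finset.mem_Ico]
  let Nb : ℕ → Finset ℕ := fun u => Finset.univ.biUnion fun t => (rdV t u).biUnion (p t).V
  have hNbmem : ∀ u u', u' ∈ Nb u ↔ ∃ t q, ((p t).i ≤ q ∧ q < (p t).j) ∧ u ∈ (p t).V q ∧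
      u' ∈ (p t).V q := by
    intro u u'
    simp only [Nb, Finset.mem_biUnion, Finset.mem_univ, true_and]
    constructor
    · rintro ⟨t, q, h1, h2⟩
      rw [hrdV] at h1
      exact ⟨t, q, h1.1, h1.2, h2⟩
    · rintro ⟨t, q, h1, h2, h3⟩
      exact ⟨t, q, (hrdV t u q).mpr ⟨h1, h2⟩, h3⟩
  have hNb : ∀ u, (Nb u).card ≤ Fintype.card τ * (k * b) := by
    intro u
    refine Finset.card_biUnion_le.trans ?_
    refine (Finset.sum_le_card_nsmul _ _ (k * b) (fun t _ => ?_)).trans ?_
    · refine Finset.card_biUnion_le.trans ?_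
      refine (Finset.sum_le_card_nsmul _ _ b (fun q _ => (p t).hb q)).trans ?_
      rw [smul_eq_mul]
      exact Nat.mul_le_mul_right b ((p t).hk u)
    · rw [Finset.card_univ, smul_eq_mul]
  have hNbsym : ∀ u u', u' ∈ Nb u → u ∈ Nb u' := by
    intro u u' h1
    rw [hNbmem] at h1 ⊢
    obtain ⟨t, q, h2, h3, h4⟩ := h1
    exact ⟨t, q, h2, h4, h3⟩
  have hSE : (Bk k)^[(Finset.univ : Finset τ).card] L * (Fintype.card τ * (k * b) + 1) ≤
      (S \ E).card := by
    have h1 := Finset.le_card_sdiff E S
    unfold Rn at hcard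
    rw [← hLdef] at hcard
    rw [Finset.card_univ]
    omega
  obtain ⟨S', hS'E, hS'c, hS'i⟩ := indep Nb _ hNb hNbsym _ (S \ E) hSE
  have hS'n : ∀ u ∈ S', u < n := fun u hu =>
    Finset.mem_range.mp (hSn (Finset.mem_sdiff.mp (hS'E hu)).1)
  -- the variable of `S'` of a matrix
  let v' : τ → ℕ → ℕ := fun t q =>
    if h : ∃ u, u ∈ S' ∧ u ∈ (p t).V q then Classical.choose h else n
  have hv1 : ∀ t q, v' t q ∈ S' → v' t q ∈ (p t).V q := by
    intro t q hq
    by_cases h1 : ∃ u, u ∈ S' ∧ u ∈ (p t).V q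
    · simp only [v']
      rw [dif_pos h1]
      exact (Classical.choose_spec h1).2
    · exfalso
      simp only [v'] at hq
      rw [dif_neg h1] at hq
      exact lt_irrefl n (hS'n n hq)
  have hv2 : ∀ t q, (p t).i ≤ q → q < (p t).j → ∀ u ∈ S', u ∈ (p t).V q → v' t q = u := by
    intro t q h1 h2 u hu huV
    have h3 : ∃ u, u ∈ S' ∧ u ∈ (p t).V q := ⟨u, hu, huV⟩
    have h4 : v' t q = Classical.choose h3 := by
      simp only [v']
      rw [dif_pos h3]
    obtain ⟨h5, h6⟩ := Classical.choose_spec h3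
    rw [← h4] at h5 h6
    by_contra hne
    exact hS'i _ h5 u hu hne ((hNbmem _ _).mpr ⟨t, q, ⟨h1, h2⟩, h6, huV⟩)
  -- inner windows
  let i1 : τ → ℕ := fun t => min ((p t).i + 1) (p t).j
  let j1 : τ → ℕ := fun t => max (i1 t) ((p t).j - 1)
  have hij1 : ∀ t, i1 t ≤ j1 t := fun t => le_max_left _ _
  have hi1 : ∀ t, (p t).i ≤ i1 t := fun t => le_min (by omega) (p t).hij
  have hi1' : ∀ t, i1 t ≤ (p t).i + 1 := fun t => min_le_left _ _
  have hi1j : ∀ t, i1 t ≤ (p t).j := fun t => min_le_right _ _
  have hj1 : ∀ t, j1 t ≤ (p t).j := fun t => max_le (hi1j t) (by omega)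
  have hj1' : ∀ t, (p t).j - 1 ≤ j1 t := fun t => le_max_right _ _
  have hinner : ∀ t p' q', i1 t ≤ p' → p' < q' → q' ≤ j1 t → (p t).i < p' ∧ q' < (p t).j := by
    intro t p' q' h1 h2 h3
    have hd1 : i1 t = (p t).i + 1 ∨ i1 t = (p t).j := by
      rcases min_choice ((p t).i + 1) (p t).j with h | h
      · exact Or.inl h
      · exact Or.inr h
    have hd2 : j1 t = i1 t ∨ j1 t = (p t).j - 1 := by
      rcases max_choice (i1 t) ((p t).j - 1) with h | h
      · exact Or.inl h
      · exact Or.inr h
    have := hj1 t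
    omega
  obtain ⟨J, hJS', hJc, hJ⟩ := struct_many k v' i1 j1 hij1
    (Finset.univ : Finset τ) L S' (by
      intro t _ u hu
      refine (Finset.card_le_card ?_).trans ((p t).hk u)
      intro q hq
      rw [mem_rd] at hq
      rw [Finset.mem_filter, Finset.mem_Ico]
      have := hi1 t
      have := hj1 t
      refine ⟨⟨by omega, by omega⟩, ?_⟩
      have h1 := hv1 t q (by rw [hq.2]; exact hu)
      rwa [hq.2] at h1) hS'c.ge
  have hJSE : J ⊆ S \ E := hJS'.trans hS'E
  have hJS : J ⊆ S := hJSE.trans Finset.sdiff_subset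
  have hJE : ∀ u ∈ J, u ∉ E := fun u hu => (Finset.mem_sdiff.mp (hJSE hu)).2
  -- the enumeration of `J`
  let e : ℕ → ℕ := fun l => if h : l < L then J.orderEmbOfFin hJc ⟨l, h⟩ else 0
  have heJ : ∀ l < L, e l ∈ J := by
    intro l hl
    simp only [e]
    rw [dif_pos hl]
    exact Finset.orderEmbOfFin_mem _ _ _
  have hemono : ∀ l l', l < l' → l' < L → e l < e l' := by
    intro l l' hll hl'
    simp only [e]
    rw [dif_pos hl', dif_pos (hll.trans hl')]
    exact (J.orderEmbOfFin hJc).strictMono hll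
  have heinj : ∀ l < L, ∀ l' < L, e l = e l' → l = l' := by
    intro l hl l' hl' hll
    rcases lt_trichotomy l l' with h1 | h1 | h1
    · have := hemono l l' h1 hl'
      omega
    · exact h1
    · have := hemono l' l h1 hl
      omega
  have hesurj : ∀ u ∈ J, ∃ l < L, e l = u := by
    intro u hu
    have h1 : u ∈ Set.range (J.orderEmbOfFin hJc) := by
      rw [Finset.range_orderEmbOfFin]
      exact hu
    obtain ⟨⟨l, hl⟩, hlu⟩ := h1
    refine ⟨l, hl, ?_⟩
    simp only [e]
    rw [dif_pos hl]
    exact hlu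
  -- generic values on `S \ J`
  let Z : (ℕ → F) → ℕ → F := fun x u => if u ∈ S \ J then x u else a u
  let W : (ℕ → F) → ℕ → F := fun x u => if u ∈ S then x u else a u
  have hZPF : ∀ u, IsPF (fun x => Z x u) := by
    intro u
    by_cases hu : u ∈ S \ J
    · simp only [Z, if_pos hu]
      exact IsPF.coord _
    · simp only [Z, if_neg hu]
      exact IsPF.const _
  have hWPF : ∀ u, IsPF (fun x => W x u) := by
    intro u
    by_cases hu : u ∈ S
    · simp only [W, if_pos hu]
      exact IsPF.coord _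
    · simp only [W, if_neg hu]
      exact IsPF.const _
  have hZa : Z a = a := by
    funext u
    simp only [Z, ite_self]
  choose P Q hPQ using fun (i : τ × ℕ × ℕ) =>
    exists_det_ne_zero (le_refl (gp (p i.1).M a i.2.1 i.2.2).rank)
  let μ : Option (τ × ℕ × ℕ) → (ℕ → F) → F := fun o x => match o with
    | none => wval p Ψ (W x)
    | some i => (P i * gp (p i.1).M (Z x) i.2.1 i.2.2 * Q i).det
  have hμPF : ∀ o, IsPF (μ o) := by
    intro o
    cases o with
    | none => exact (wval_PF p Ψ).comp hWPF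
    | some i =>
      exact MPF.det (((MPF.const _).mul (gp_MPF (p i.1).poly hZPF _ _)).mul (MPF.const _))
  have hμ0 : ∀ o, ∃ x, μ o x ≠ 0 := by
    intro o
    cases o with
    | none =>
      refine ⟨xS, ?_⟩
      show wval p Ψ (W xS) ≠ 0
      have : W xS = xS := by
        funext u
        simp only [W]
        by_cases hu : u ∈ S
        · rw [if_pos hu]
        · rw [if_neg hu, hxS u hu]
      rw [this]
      exact hxSne
    | some i =>
      refine ⟨a, ?_⟩
      show (P i * gp (p i.1).M (Z a) i.2.1 i.2.2 * Q i).det ≠ 0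
      rw [hZa]
      exact hPQ i
  let N : ℕ := Finset.univ.sup fun t => (p t).j
  have hN : ∀ t, (p t).j ≤ N := fun t => Finset.le_sup (f := fun t => (p t).j) (Finset.mem_univ t)
  obtain ⟨x1, hx1⟩ := IsPF.exists_common
    (insert none (((Finset.univ : Finset τ) ×ˢ (Finset.range (N + 1) ×ˢ
      Finset.range (N + 1))).image some)) (fun o _ => hμPF o) (fun o _ => hμ0 o)
  have hx1P : wval p Ψ (W x1) ≠ 0 := hx1 none (Finset.mem_insert_self _ _)
  have hx1r : ∀ t i j, i ≤ N → j ≤ N →
      (gp (p t).M a i j).rank ≤ (gp (p t).M (Z x1) i j).rank := by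
    intro t i j hi hj
    have h1 := hx1 (some (t, i, j)) (Finset.mem_insert_of_mem (Finset.mem_image_of_mem _ (by
      rw [Finset.mem_product, Finset.mem_product, Finset.mem_range, Finset.mem_range]
      exact ⟨Finset.mem_univ _, Nat.lt_succ_of_le hi, Nat.lt_succ_of_le hj⟩)))
    exact le_rank_of_det_ne_zero h1
  -- points
  let idx : ℕ → ℕ := fun u => if h : ∃ l, l < L ∧ e l = u then Classical.choose h else 0
  have hidx : ∀ l < L, idx (e l) = l := by
    intro l hl
    have h1 : ∃ l', l' < L ∧ e l' = e l := ⟨l, hl, rfl⟩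
    simp only [idx]
    rw [dif_pos h1]
    have h2 := Classical.choose_spec h1
    exact heinj _ h2.1 l hl h2.2
  obtain ⟨pt, hpt⟩ : ∃ pt : (ℕ → F) → ℕ → F, ∀ ξ u, pt ξ u =
      if u ∈ J then ξ (idx u) else Z x1 u := ⟨_, fun _ _ => rfl⟩
  have hpt1 : ∀ ξ, ∀ l < L, pt ξ (e l) = ξ l := by
    intro ξ l hl
    rw [hpt, if_pos (heJ l hl), hidx l hl]
  have hpt3 : ∀ ξ u, u ∉ J → pt ξ u = Z x1 u := by
    intro ξ u hu
    rw [hpt, if_neg hu]
  have hpt2 : ∀ ξ u, (∀ l < L, e l ≠ u) → pt ξ u = Z x1 u := by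
    intro ξ u hu
    apply hpt3
    intro huJ
    obtain ⟨l, hl, hlu⟩ := hesurj u huJ
    exact hu l hl hlu
  have hptJ : pt (fun l => a (e l)) = Z x1 := by
    funext u
    rw [hpt]
    by_cases hu : u ∈ J
    · obtain ⟨l, hl, hlu⟩ := hesurj u hu
      rw [if_pos hu, ← hlu, hidx l hl]
      simp only [Z]
      rw [if_neg]
      rw [Finset.mem_sdiff, not_and_not_right]
      intro _
      exact heJ l hl
    · rw [if_neg hu]
  -- the matrices as functions of one variable
  let M' : τ → ℕ → F → Matrix m m F := fun t q s =>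
    (p t).M q (Function.update (Z x1) (v' t q) s)
  have hM'poly : ∀ t l, ∀ a' b', ∃ r : Polynomial F, ∀ s, r.eval s = M' t l s a' b' := by
    intro t l a' b'
    apply unit_poly
    have := ((p t).poly l).comp (κ := Unit)
      (g := fun x => Function.update (Z x1) (v' t l) (x ())) (fun u => by
        by_cases hu : u = v' t l
        · subst hu
          simp only [Function.update_self]
          exact IsPF.coord _
        · simp only [Function.update_of_ne hu]
          exact IsPF.const _)
    exact this a' b'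
  have hM'eq : ∀ t q, (p t).i ≤ q → q < (p t).j → ∀ x : ℕ → F,
      (∀ u, u ∉ S' → x u = Z x1 u) → (p t).M q x = M' t q (x (v' t q)) := by
    intro t q h1 h2 x hx
    apply (p t).dep
    intro u hu
    by_cases huv : u = v' t q
    · rw [← huv, Function.update_self]
    · rw [Function.update_of_ne huv]
      apply hx
      intro huS
      exact huv (hv2 t q h1 h2 u huS hu).symm
  -- the chains
  have hRp : ∀ t, Pool.Agent.W2helper21.RK.Rp L (fun l => a (e l)) (Cd (Fintype.card m) k)
      (fun ξ => cp (M' t) (fun r => pt ξ (v' t r)) (i1 t) (j1 t)) := by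
    intro t
    refine (rep (hM'poly t) hL0 hpt1 hpt2 heJ hemono (hJ t (Finset.mem_univ t)) ?_).2
    intro p' q' h1 h2 h3 x
    obtain ⟨h4, h5⟩ := hinner t p' q' h1 h2 h3
    rw [hptJ]
    have hNt := hN t
    have e1 : cp (M' t) (fun r => Z x1 (v' t r)) p' q' = gp (p t).M (Z x1) p' q' := by
      symm
      apply gp_eq_cp
      intro l h6 h7
      exact hM'eq t l (by omega) (by omega) (Z x1) (fun _ _ => rfl)
    have e2 : cp (M' t) (fun r => x (v' t r)) p' q' =
        gp (p t).M (fun u => if u ∈ S' then x u else if u = n then x u else Z x1 u) p' q' := by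
      symm
      apply gp_eq_cp
      intro l h6 h7
      show (p t).M l _ = (p t).M l (Function.update (Z x1) (v' t l) (x (v' t l)))
      apply (p t).dep
      intro u hu
      have hun : u < n := (p t).hV l u hu
      by_cases huS : u ∈ S'
      · rw [if_pos huS, hv2 t l (by omega) (by omega) u huS hu, Function.update_self]
      · rw [if_neg huS, if_neg hun.ne, Function.update_of_ne]
        intro huv
        by_cases hex : ∃ u, u ∈ S' ∧ u ∈ (p t).V l
        · have h8 : v' t l = Classical.choose hex := by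
            simp only [v']
            rw [dif_pos hex]
          apply huS
          rw [huv, h8]
          exact (Classical.choose_spec hex).1
        · have h8 : v' t l = n := by
            simp only [v']
            rw [dif_neg hex]
          omega
    rw [e1, e2]
    exact (hmax t p' q' h4 h2 h5 _).trans (hx1r t p' q' (by omega) (by omega))
  choose C hCpoly hCrank Y V hYV using fun t => (hRp t).func
    ((p t).y ᵥ* gp (p t).M (Z x1) (p t).i (i1 t))
    (gp (p t).M (Z x1) (j1 t) (p t).j *ᵥ (p t).v0)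
  have hval : ∀ t ξ, (p t).val (pt ξ) = Y t ⬝ᵥ (cp (C t) ξ 0 L *ᵥ V t) := by
    intro t ξ
    rw [← hYV]
    unfold Win.val
    rw [← gp_mul _ (hi1 t) (hi1j t), ← gp_mul _ (hij1 t) (hj1 t)]
    have e0 : gp (p t).M (pt ξ) (i1 t) (j1 t) =
        cp (M' t) (fun r => pt ξ (v' t r)) (i1 t) (j1 t) := by
      apply gp_eq_cp
      intro l h1 h2
      have h3 := hi1 t
      have h4 := hj1 t
      exact hM'eq t l (by omega) (by omega) (pt ξ)
        (fun u hu => hpt3 ξ u fun h => hu (hJS' h))
    have e1 : gp (p t).M (pt ξ) (p t).i (i1 t) = gp (p t).M (Z x1) (p t).i (i1 t) := by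
      apply gp_congr
      intro q h1 h2
      have h3 : q = (p t).i := by
        have := hi1' t
        omega
      apply (p t).dep
      intro u hu
      apply hpt3
      intro huJ
      apply hJE u huJ
      rw [h3] at hu
      exact hE1 t u hu
    have e2 : gp (p t).M (pt ξ) (j1 t) (p t).j = gp (p t).M (Z x1) (j1 t) (p t).j := by
      apply gp_congr
      intro q h1 h2
      have h3 : q = (p t).j - 1 := by
        have := hj1' t
        omega
      apply (p t).dep
      intro u hu
      apply hpt3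
      intro huJ
      apply hJE u huJ
      rw [h3] at hu
      exact hE2 t u hu
    rw [e0, e1, e2, ← Matrix.mulVec_mulVec, ← Matrix.mulVec_mulVec, ← Matrix.dotProduct_mulVec]
  let D : τ → ℕ → F → Matrix (Fin (Cd (Fintype.card m) k * (Fintype.card m * Fintype.card m)))
      (Fin (Cd (Fintype.card m) k * (Fintype.card m * Fintype.card m))) F :=
    fun t l s => C t l (a (e l) + s)
  have hDcp : ∀ t x i j, cp (D t) x i j = cp (C t) (fun l => a (e l) + x l) i j :=
    fun t x i j => rfl
  have hDpoly : ∀ t l, ∀ a' b', ∃ r : Polynomial F, ∀ s, r.eval s = D t l s a' b' := by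
    intro t l a' b'
    obtain ⟨r, hr⟩ := hCpoly t l a' b'
    refine ⟨r.comp (Polynomial.C (a (e l)) + Polynomial.X), fun s => ?_⟩
    rw [Polynomial.eval_comp, Polynomial.eval_add, Polynomial.eval_C, Polynomial.eval_X, hr]
  have hrank : ∀ t i j, i < j → j ≤ L → ∀ x, (cp (D t) x i j).rank ≤
      (cp (D t) (fun _ => 0) i j).rank := by
    intro t i j hij hj x
    rw [hDcp, hDcp]
    have h0 : (fun l => a (e l) + (fun _ : ℕ => (0 : F)) l) = fun l => a (e l) := by
      funext l
      simp
    rw [h0]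
    exact hCrank t i j hij hj _
  have hfin := aligned (τ := τ) hDpoly (L := L) (by rw [Fintype.card_fin]) hrank Y V Ψ (by
      intro i hi x hxi
      have h1 : MvPolynomial.eval (fun t => Y t ⬝ᵥ (cp (D t) x 0 L *ᵥ V t)) Ψ =
          wval p Ψ (pt fun l => a (e l) + x l) := by
        unfold wval
        congr 2
        funext t
        rw [hval]
        rfl
      rw [h1]
      by_contra hne
      have hmem : S.erase (e i) ∈ 𝒮 := by
        rw [Finset.mem_filter, Finset.mem_powerset]
        refine ⟨(Finset.erase_subset _ _).trans hSn, pt fun l => a (e l) + x l, ?_, hne⟩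
        intro u hu
        by_cases huJ : u ∈ J
        · have hue : u = e i := by
            by_contra hcon
            exact hu (Finset.mem_erase.mpr ⟨hcon, hJS huJ⟩)
          rw [hue, hpt1 _ i hi, hxi, add_zero]
        · rw [hpt, if_neg huJ]
          simp only [Z]
          rw [if_neg]
          intro huS
          rw [Finset.mem_sdiff] at huS
          apply hu
          refine Finset.mem_erase.mpr ⟨?_, huS.1⟩
          rintro rfl
          exact huJ (heJ i hi)
      have h2 := hmin _ hmem
      have h3 : (S.erase (e i)).card < S.card := Finset.card_erase_lt_of_mem (hJS (heJ i hi))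
      omega) (fun l => x1 (e l) - a (e l))
  apply hx1P
  have h4 : W x1 = pt fun l => a (e l) + (x1 (e l) - a (e l)) := by
    funext u
    by_cases huJ : u ∈ J
    · obtain ⟨l, hl, hlu⟩ := hesurj u huJ
      rw [← hlu, hpt1 _ l hl]
      simp only [W]
      rw [if_pos (hJS (heJ l hl))]
      ring
    · rw [hpt3 _ u huJ]
      simp only [W, Z, Finset.mem_sdiff]
      by_cases huS : u ∈ S
      · rw [if_pos huS, if_pos ⟨huS, huJ⟩]
      · rw [if_neg huS, if_neg (fun h => huS h.1)]
  rw [h4, ← hfin]
  unfold wval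
  congr 2
  funext t
  rw [hval]
  rfl

end Pool.Agent.W2helper21.LP
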